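import Pool.Agent.Run7.h106.AC.PolyFin

/-!
Self-avoiding polygons on the square lattice: analytic continuation, beyond the circle of
convergence, of the generating function of the total area, and of the generating functions of the
total area of the polygons weighted by a function of the width and the height.
-/

set_option autoImplicit false

namespace Pool.Agent.Results.MP_2250b1_co.AreaSeriesContinuation

open Filter Topology

/-- `ω` is an `n`-step self-avoiding walk on `ℤ²` started at the origin. -/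
def IsSAW (n : ℕ) (ω : Fin (n + 1) → ℤ × ℤ) : Prop :=
  ω 0 = (0, 0) ∧
  (∀ i : Fin n, |(ω i.succ).1 - (ω i.castSucc).1| + |(ω i.succ).2 - (ω i.castSucc).2| = 1) ∧
  Function.Injective ω

/-- the number of `n`-step self-avoiding walks on `ℤ²` started at the origin -/
noncomputable def c (n : ℕ) : ℕ := {ω | IsSAW n ω}.ncard

/-- a closed nearest-neighbour loop on `ℤ²` with `m` steps, rooted at the origin and oriented,
that visits no vertex twice -/
def IsLoop (m : ℕ) (f : ZMod m → ℤ × ℤ) : Prop :=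
  f 0 = 0 ∧ Function.Injective f ∧
    ∀ i : ZMod m, |(f (i + 1)).1 - (f i).1| + |(f (i + 1)).2 - (f i).2| = 1

/-- the edge from `f k` to `f (k+1)` is horizontal, joins the columns `x = a` and `x = a + 1`, and
has height larger than `b`: it lies above the unit cell `[a, a+1] × [b, b+1]` -/
def Above (m : ℕ) (f : ZMod m → ℤ × ℤ) (a b : ℤ) (k : ZMod m) : Prop :=
  (((f k).1 = a ∧ (f (k + 1)).1 = a + 1) ∨ ((f k).1 = a + 1 ∧ (f (k + 1)).1 = a)) ∧ b < (f k).2

/-- the unit cell `[a, a+1] × [b, b+1]` is enclosed by the loop: the vertical ray from the cell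
upwards crosses an odd number of edges -/
def Encl (m : ℕ) (f : ZMod m → ℤ × ℤ) (c : ℤ × ℤ) : Prop :=
  Odd (Nat.card {k : ZMod m // Above m f c.1 c.2 k})

/-- the area: the number of unit cells enclosed by the loop -/
noncomputable def area (m : ℕ) (f : ZMod m → ℤ × ℤ) : ℕ := Nat.card {c : ℤ × ℤ // Encl m f c}

/-- the horizontal extent of a loop -/
noncomputable def width (m : ℕ) (f : ZMod m → ℤ × ℤ) : ℕ :=
  sSup {w : ℕ | ∃ i j, w = ((f i).1 - (f j).1).natAbs}

/-- the vertical extent of a loop -/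
noncomputable def height (m : ℕ) (f : ZMod m → ℤ × ℤ) : ℕ :=
  sSup {w : ℕ | ∃ i j, w = ((f i).2 - (f j).2).natAbs}

/-- The sum of `φ` over the self-avoiding polygons of perimeter `2 n` up to translation, for a
function `φ` of loops which does not depend on the starting point and the orientation: every polygon
corresponds to `4 n` loops from the origin. -/
noncomputable def S (n : ℕ) (φ : (ZMod (2 * n) → ℤ × ℤ) → ℝ) : ℝ :=
  (∑ᶠ f ∈ {f : ZMod (2 * n) → ℤ × ℤ | IsLoop (2 * n) f}, φ f) / (4 * (n : ℝ))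

/-- `cos (2 arg z)` for `z ≠ 0` -/
noncomputable def cos2 (z : ℂ) : ℝ := (z ^ 2).re / ‖z‖ ^ 2

/-- The domain `|z| < (1 + δ (1 - cos (2 arg z))) / μ`: the disc of convergence enlarged at all
points of the circle of convergence except `±1/μ`. -/
def Dom (μ δ : ℝ) : Set ℂ := {z | μ * ‖z‖ < 1 + δ * (1 - cos2 z)}

open Pool.Agent.H976R2 Pool.Agent.N929.EZ Pool.Agent.H739K Run7.h106.AC

/-- **Theorem.** Let `μ` be the connective constant of `ℤ²`. There is `δ > 0` such that the open
connected set `Dom μ δ`, which contains the disc `|z| < 1/μ` and all points of the circle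
`|z| = 1/μ` except `1/μ` and `-1/μ`, has the following properties.
(1) The generating function `∑_{n ≥ 2} a_n z^(2n)`, where `a_n = A_n p_{2n}` is the sum of the areas
of the self-avoiding polygons of perimeter `2n` up to translation, extends to a holomorphic function
`F` on `Dom μ δ`, and there is `K` such that for all `z` in `Dom μ δ` with `z² ∉ [0, ∞)` the point
`x = (1 - δ (1 - cos (2 arg z))) / μ < 1/μ` satisfies `|F'(z)| ≤ K (1 + |F'(x)|)`.
(2) For every function `g` of two variables with polynomial growth the generating function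
`∑_{n ≥ 2} b_n z^(2n)`, where `b_n` is the sum of `area · g (width, height)` over the self-avoiding
polygons of perimeter `2n` up to translation, extends to a holomorphic function on `Dom μ δ`. -/
theorem result : ∃ μ : ℝ, 1 ≤ μ ∧
    Tendsto (fun n : ℕ => (c n : ℝ) ^ (1 / (n : ℝ))) atTop (𝓝 μ) ∧
    ∃ δ : ℝ, 0 < δ ∧ δ ≤ 1 / 4 ∧
    (IsOpen (Dom μ δ) ∧ IsPreconnected (Dom μ δ) ∧ (∀ z : ℂ, μ * ‖z‖ < 1 → z ∈ Dom μ δ) ∧
      ∀ z : ℂ, μ * ‖z‖ = 1 → z ≠ ((1 / μ : ℝ) : ℂ) → z ≠ ((-(1 / μ) : ℝ) : ℂ) → z ∈ Dom μ δ) ∧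
    (∃ (F : ℂ → ℂ) (K : ℝ), DifferentiableOn ℂ F (Dom μ δ) ∧
      (∀ z : ℂ, μ * ‖z‖ < 1 →
        HasSum (fun n : ℕ => (S (n + 2) (fun f => (area (2 * (n + 2)) f : ℝ)) : ℂ) *
          z ^ (2 * (n + 2))) (F z)) ∧
      ∀ z ∈ Dom μ δ, z ≠ 0 → cos2 z < 1 →
        ‖deriv F z‖ ≤ K * (1 + ‖deriv F (((1 - δ * (1 - cos2 z)) / μ : ℝ) : ℂ)‖)) ∧
    ∀ (g : ℕ → ℕ → ℝ) (B : ℝ) (P : ℕ), (∀ a b : ℕ, |g a b| ≤ B * ((a : ℝ) + b + 1) ^ P) →
      ∃ F : ℂ → ℂ, DifferentiableOn ℂ F (Dom μ δ) ∧
        ∀ z : ℂ, μ * ‖z‖ < 1 →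
          HasSum (fun n : ℕ => (S (n + 2) (fun f => (area (2 * (n + 2)) f : ℝ) *
            g (width (2 * (n + 2)) f) (height (2 * (n + 2)) f)) : ℂ) * z ^ (2 * (n + 2)))
            (F z) := by
  have hμ : 1 ≤ H981.mu := by linarith [Pool.Agent.H739K.mu_ge]
  have hμ0 : 0 < H981.mu := by linarith
  obtain ⟨δ, hδ, hδ4, hpm⟩ := poly_main
  obtain ⟨d1, d2, d3, d4⟩ := dom_facts hδ
  refine ⟨H981.mu, hμ, c_lim, δ, hδ, hδ4, ⟨d1, d2, d3, d4⟩, ?_, fun g B P hg => ?_⟩
  · obtain ⟨K, hK, f, f1, f2⟩ := area_ac hδ hδ4 hpm 1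
    obtain ⟨F, F1, F2⟩ := poly_series hδ (G := Gk1 1)
      (fun w hw => by unfold Gk1; rw [if_neg hw]) f1
    refine ⟨F, K, fun z hz => (F1 z hz).differentiableAt.differentiableWithinAt, fun z hz => ?_,
      fun z hz hz0 hz1 => ?_⟩
    · refine (congrArg (fun g => HasSum g (F z)) ?_).mp (F2 z hz)
      funext n
      unfold S
      rw [← loop_Gk (by omega) 1]
      simp only [pow_one]
      rfl
    · have hx : H981.mu * ((1 - δ * (1 - cos2 z)) / H981.mu) = 1 - δ * (1 - cos2 z) := by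
        field_simp
      have habs := abs_le.1 (cs_abs 2 z)
      have hc1 : -1 ≤ cos2 z := habs.1
      have hx0 : 0 < (1 - δ * (1 - cos2 z)) / H981.mu := by
        refine div_pos ?_ hμ0
        nlinarith
      have hxm : (((1 - δ * (1 - cos2 z)) / H981.mu : ℝ) : ℂ) ∈
          Pool.Agent.N929.AC.Om δ H981.mu 2 := by
        refine d3 _ ?_
        rw [Complex.norm_real, Real.norm_of_nonneg hx0.le, hx]
        nlinarith
      rw [(F1 z hz).deriv, (F1 _ hxm).deriv]
      have h1 := f2 z hz hz0 hz1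
      rw [norm_div, norm_div, Complex.norm_ofNat]
      have h2 : Pool.Agent.N929.AC.xx δ H981.mu 2 z = (1 - δ * (1 - cos2 z)) / H981.mu := rfl
      rw [h2] at h1
      have h3 := norm_nonneg (f (((1 - δ * (1 - cos2 z)) / H981.mu : ℝ) : ℂ))
      calc ‖f z‖ / 2 ≤ K * (1 + ‖f (((1 - δ * (1 - cos2 z)) / H981.mu : ℝ) : ℂ)‖) / 2 := by
            linarith
        _ ≤ K * (1 + ‖f (((1 - δ * (1 - cos2 z)) / H981.mu : ℝ) : ℂ)‖ / 2) := by nlinarith
  · have hB : 0 ≤ B := by
      have := (abs_nonneg _).trans (hg 0 0)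
      simpa using this
    obtain ⟨f, f1⟩ := mix_ac hpm 1 P hB (g := fun a b => g a.toNat b.toNat)
      (fun a b ha hb => by
        have h1 := hg a.toNat b.toNat
        have e1 : ((a.toNat : ℕ) : ℝ) = (a : ℝ) := by
          have : ((a.toNat : ℕ) : ℤ) = a := Int.toNat_of_nonneg ha
          exact_mod_cast this
        have e2 : ((b.toNat : ℕ) : ℝ) = (b : ℝ) := by
          have : ((b.toNat : ℕ) : ℤ) = b := Int.toNat_of_nonneg hb
          exact_mod_cast this
        rw [e1, e2] at h1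
        exact h1)
    obtain ⟨F, F1, F2⟩ := poly_series hδ (G := GM 1 (fun a b => g a.toNat b.toNat))
      (fun w hw => by unfold GM; rw [if_neg hw]) f1
    refine ⟨F, fun z hz => (F1 z hz).differentiableAt.differentiableWithinAt, fun z hz => ?_⟩
    refine (congrArg (fun g => HasSum g (F z)) ?_).mp (F2 z hz)
    funext n
    unfold S
    rw [← loop_GM (by omega) 1 g]
    simp only [pow_one]
    rfl

end Pool.Agent.Results.MP_2250b1_co.AreaSeriesContinuation
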