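import Pool.Agent.Run7.h822.WN.PolyArea

/-!
# The areas cut off by the chords of self-avoiding polygons

For the uniform self-avoiding polygon `f` of perimeter `2 n` on `ℤ²`:

* `chordArea f s t`: the algebraic area (by the shoelace formula) between the arc
  `f(s), f(s+1), …, f(t)` and its chord from `f(t)` to `f(s)`; the area is counted with the winding
  numbers of the closed curve as multiplicities, and single arcs of `m` steps can have
  `|chordArea|` of the order of `m` times their width;
* `area f`: the signed area of the polygon (by the shoelace formula); its absolute value is the number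
  of enclosed unit squares;
* `inscribed f k τ`: the signed area of the closed polygonal line with the vertices
  `f(τ 0), f(τ 1), …, f(τ k)`, also by the shoelace formula.

**The theorem**: with probability at least `1 - e^(-x)`, for all arcs at once the area cut off by the
chord is at most `K ((log n)² + x)` times the area of any box (with sides parallel to the axes) which
contains the arc; and for all inscribed polygonal lines at once the areas of the polygon and of the
inscribed polygonal line differ by at most `K ((log n)² + x)` times the sum of the areas of the boxes of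
the arcs between its successive vertices. So the area of a typical self-avoiding polygon is given by its
skeleton, a polygonal line through every `m`-th vertex, up to the factor `K ((log n)² + x)` in front of
the sum of the `2 n / m` products width times height of the arcs of `m` steps.

Proof: for an arc which is a concatenation of `m` bridges, the net crossing number of every vertical
half-line is at most `m` in absolute value (planar topology of bridges, see
`MP_46f0ca_pr.WindingAngles`), and the algebraic area is a sum of such crossing numbers over the box.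
The arcs of typical polygons are concatenations of `K ((log n)² + x)` bridges: transfer of helper529's
bound (`Run7.h529.FB.mean_V`) to polygons by the lower bound for their number.
-/

set_option autoImplicit false

namespace Pool.Agent.Results.MP_2250b1_co.ChordAreas

open Finset

/-- `f` is a self-avoiding polygon of perimeter `2 n`, with a root (which is the origin) and an
orientation: a closed nearest-neighbour walk of `2 n` steps which visits no vertex twice. (Every
polygon, up to translation, has exactly `4 n` such descriptions, so that a uniform `f` is a uniform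
polygon with a uniform root and orientation.) -/
def IsPolygon (n : ℕ) (f : ZMod (2 * n) → ℤ × ℤ) : Prop :=
  f 0 = 0 ∧ Function.Injective f ∧
    ∀ i : ZMod (2 * n), |(f (i + 1)).1 - (f i).1| + |(f (i + 1)).2 - (f i).2| = 1

/-- the vertex at the time `j` (the times are taken modulo `2 n`) -/
def at' {n : ℕ} (f : ZMod (2 * n) → ℤ × ℤ) (j : ℕ) : ℤ × ℤ := f (j : ZMod (2 * n))

/-- the algebraic area of the closed polygonal line `f(s), f(s+1), …, f(t), f(s)`, by the shoelace
formula: `(1/2) ∑_{s ≤ i < t} det (f(i) - f(s), f(i+1) - f(s))` -/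
noncomputable def chordArea {n : ℕ} (f : ZMod (2 * n) → ℤ × ℤ) (s t : ℕ) : ℝ :=
  ((∑ i ∈ Ico s t, (((at' f i).1 - (at' f s).1) * ((at' f (i + 1)).2 - (at' f s).2) -
    ((at' f i).2 - (at' f s).2) * ((at' f (i + 1)).1 - (at' f s).1)) : ℤ) : ℝ) / 2

/-- the signed area of the polygon, by the shoelace formula: `(1/2) ∑_{i < 2 n} det (f(i), f(i+1))` -/
noncomputable def area {n : ℕ} (f : ZMod (2 * n) → ℤ × ℤ) : ℝ :=
  ((∑ i ∈ range (2 * n), ((at' f i).1 * (at' f (i + 1)).2 - (at' f i).2 * (at' f (i + 1)).1) : ℤ) :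
    ℝ) / 2

/-- the signed area of the closed polygonal line with the vertices `f(τ 0), …, f(τ k)` (where
`τ 0 = 0` and `τ k = 2 n`, so that the last vertex is the first one), by the shoelace formula -/
noncomputable def inscribed {n : ℕ} (f : ZMod (2 * n) → ℤ × ℤ) (k : ℕ) (τ : ℕ → ℕ) : ℝ :=
  ((∑ j ∈ range k, ((at' f (τ j)).1 * (at' f (τ (j + 1))).2 -
    (at' f (τ j)).2 * (at' f (τ (j + 1))).1) : ℤ) : ℝ) / 2

/-- the arc `f(s), …, f(t)` is contained in the box `[a, b] × [c, d]` -/
def InBox {n : ℕ} (f : ZMod (2 * n) → ℤ × ℤ) (s t : ℕ) (a b c d : ℤ) : Prop :=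
  ∀ i : ℕ, s ≤ i → i ≤ t → (a ≤ (at' f i).1 ∧ (at' f i).1 ≤ b) ∧
    (c ≤ (at' f i).2 ∧ (at' f i).2 ≤ d)

/-- **Theorem.** There is a constant `K > 0` such that for all `n ≥ 2` and `x ≥ 0` a proportion at
least `1 - exp (-x)` of the self-avoiding polygons `f` of perimeter `2 n` has both properties:
(1) for every arc `f(s), …, f(t)` with less than `2 n` steps and every box `[a, b] × [c, d]` which
contains it, `|chordArea f s t| ≤ K ((log n)² + x) (b - a) (d - c)`;
(2) for all times `0 = τ 0 ≤ τ 1 ≤ … ≤ τ k = 2 n` with `τ (j + 1) - τ j < 2 n` and all boxes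
`[a j, b j] × [c j, d j]` which contain the arcs `f(τ j), …, f(τ (j + 1))`, the areas of the polygon and
of the inscribed polygonal line differ by at most `K ((log n)² + x) ∑_j (b j - a j) (d j - c j)`. -/
theorem result : ∃ K : ℝ, 0 < K ∧ ∀ n : ℕ, 2 ≤ n → ∀ x : ℝ, 0 ≤ x →
    (1 - Real.exp (-x)) * (Nat.card {f : ZMod (2 * n) → ℤ × ℤ // IsPolygon n f} : ℝ) ≤
    (Nat.card {f : ZMod (2 * n) → ℤ × ℤ // IsPolygon n f ∧
      (∀ s t : ℕ, s < 2 * n → s ≤ t → t < s + 2 * n → ∀ a b c d : ℤ, InBox f s t a b c d →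
        |chordArea f s t| ≤ K * (Real.log n ^ 2 + x) * ((b - a) * (d - c))) ∧
      (∀ (k : ℕ) (τ : ℕ → ℕ), τ 0 = 0 → τ k = 2 * n →
        (∀ j < k, τ j ≤ τ (j + 1) ∧ τ (j + 1) < τ j + 2 * n) →
        ∀ a b c d : ℕ → ℤ, (∀ j < k, InBox f (τ j) (τ (j + 1)) (a j) (b j) (c j) (d j)) →
          |area f - inscribed f k τ| ≤
            K * (Real.log n ^ 2 + x) * ∑ j ∈ range k, ((b j - a j : ℝ) * (d j - c j)))} : ℝ) := by
  obtain ⟨K, hK, H⟩ := Run7.h822.WN.poly_area
  refine ⟨K, hK, fun n hn x hx => ?_⟩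
  have h := H n hn x hx
  have hfin := Run7.h738.PG.Loop_finite (2 * n) (by omega)
  have e1 : (Nat.card {f : ZMod (2 * n) → ℤ × ℤ // IsPolygon n f}) =
      ({f | Run7.h738.PG.Loop (2 * n) f} : Set (ZMod (2 * n) → ℤ × ℤ)).ncard :=
    Nat.card_coe_set_eq _
  rw [e1]
  refine h.trans ?_
  rw [show Nat.card {f : ZMod (2 * n) → ℤ × ℤ // IsPolygon n f ∧
      (∀ s t : ℕ, s < 2 * n → s ≤ t → t < s + 2 * n → ∀ a b c d : ℤ, InBox f s t a b c d →
        |chordArea f s t| ≤ K * (Real.log n ^ 2 + x) * ((b - a) * (d - c))) ∧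
      (∀ (k : ℕ) (τ : ℕ → ℕ), τ 0 = 0 → τ k = 2 * n →
        (∀ j < k, τ j ≤ τ (j + 1) ∧ τ (j + 1) < τ j + 2 * n) →
        ∀ a b c d : ℕ → ℤ, (∀ j < k, InBox f (τ j) (τ (j + 1)) (a j) (b j) (c j) (d j)) →
          |area f - inscribed f k τ| ≤
            K * (Real.log n ^ 2 + x) * ∑ j ∈ range k, ((b j - a j : ℝ) * (d j - c j)))} =
      ({f | IsPolygon n f ∧
      (∀ s t : ℕ, s < 2 * n → s ≤ t → t < s + 2 * n → ∀ a b c d : ℤ, InBox f s t a b c d →
        |chordArea f s t| ≤ K * (Real.log n ^ 2 + x) * ((b - a) * (d - c))) ∧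
      (∀ (k : ℕ) (τ : ℕ → ℕ), τ 0 = 0 → τ k = 2 * n →
        (∀ j < k, τ j ≤ τ (j + 1) ∧ τ (j + 1) < τ j + 2 * n) →
        ∀ a b c d : ℕ → ℤ, (∀ j < k, InBox f (τ j) (τ (j + 1)) (a j) (b j) (c j) (d j)) →
          |area f - inscribed f k τ| ≤
            K * (Real.log n ^ 2 + x) * ∑ j ∈ range k, ((b j - a j : ℝ) * (d j - c j)))} :
        Set (ZMod (2 * n) → ℤ × ℤ)).ncard from Nat.card_coe_set_eq _]
  refine Nat.cast_le.2 (Set.ncard_le_ncard ?_ (hfin.subset fun f hf => hf.1))
  rintro f ⟨hf, hT⟩
  set y : ℝ := K * (Real.log n ^ 2 + x) with hy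
  have hy0 : 0 ≤ y := by positivity
  have harc : ∀ s t : ℕ, s < 2 * n → s ≤ t → t < s + 2 * n → ∀ a b c d : ℤ, InBox f s t a b c d →
      |(Run7.h822.WN.area2 (at' f) s t : ℝ)| ≤ y * ((b - a) * (d - c)) := by
    intro s t hs hst ht a b c d hb
    obtain ⟨m, rfl⟩ := Nat.exists_eq_add_of_le hst
    exact hT s m hs (by omega) a b c d hb
  have hbox : ∀ s t : ℕ, s ≤ t → ∀ a b c d : ℤ, InBox f s t a b c d →
      (0 : ℝ) ≤ (b - a) * (d - c) := by
    intro s t hst a b c d hb
    obtain ⟨⟨g1, g2⟩, g3, g4⟩ := hb s le_rfl hst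
    have e1 : (a : ℝ) ≤ b := by exact_mod_cast g1.trans g2
    have e2 : (c : ℝ) ≤ d := by exact_mod_cast g3.trans g4
    have e3 : (0 : ℝ) ≤ b - a := by linarith
    have e4 : (0 : ℝ) ≤ d - c := by linarith
    positivity
  refine ⟨hf, fun s t hs hst ht a b c d hb => ?_, fun k τ h0 hk hτ a b c d hb => ?_⟩
  · have h1 := harc s t hs hst ht a b c d hb
    have h2 : chordArea f s t = (Run7.h822.WN.area2 (at' f) s t : ℝ) / 2 := rfl
    have h3 : 0 ≤ y * (((b : ℝ) - a) * (d - c)) := mul_nonneg hy0 (hbox s t hst a b c d hb)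
    rw [h2, abs_div, abs_of_pos (show (0 : ℝ) < 2 by norm_num)]
    linarith
  · have h1 := Run7.h822.WN.skeleton (at' f) k τ (fun j hj => (hτ j hj).1)
    rw [h0, hk, ← range_eq_Ico] at h1
    have h2 : area f - inscribed f k τ =
        (∑ j ∈ range k, (Run7.h822.WN.area2 (at' f) (τ j) (τ (j + 1)) : ℝ)) / 2 := by
      have e2 : area f = ((∑ i ∈ range (2 * n), Run7.h822.WN.det2 (at' f i) (at' f (i + 1)) : ℤ) :
          ℝ) / 2 := rfl
      have e3 : inscribed f k τ = ((∑ j ∈ range k,
          Run7.h822.WN.det2 (at' f (τ j)) (at' f (τ (j + 1))) : ℤ) : ℝ) / 2 := rfl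
      rw [e2, e3, h1]
      push_cast
      ring
    rw [h2, abs_div, abs_of_pos (show (0 : ℝ) < 2 by norm_num), div_le_iff₀ (by norm_num)]
    have hmono : ∀ j ≤ k, τ j ≤ 2 * n := by
      intro j hj
      rw [← hk]
      obtain ⟨i, hi0⟩ := Nat.exists_eq_add_of_le hj
      have h5 : ∀ i, j + i ≤ k → τ j ≤ τ (j + i) := by
        intro i
        induction i with
        | zero => intro _; exact le_rfl
        | succ i ih => intro hi; exact (ih (by omega)).trans (hτ (j + i) (by omega)).1
      have h6 := h5 i (by omega)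
      rwa [← hi0] at h6
    have hterm : ∀ j ∈ range k, |(Run7.h822.WN.area2 (at' f) (τ j) (τ (j + 1)) : ℝ)| ≤
        y * ((b j - a j : ℝ) * (d j - c j)) := by
      intro j hj
      rw [mem_range] at hj
      obtain ⟨g1, g2⟩ := hτ j hj
      have hle := hmono j hj.le
      rcases hle.eq_or_lt with heq | hlt
      · have g3 := hmono (j + 1) hj
        have g4 : τ (j + 1) = τ j := by omega
        rw [g4]
        have g5 : Run7.h822.WN.area2 (at' f) (τ j) (τ j) = 0 := by
          unfold Run7.h822.WN.area2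
          simp
        rw [g5, Int.cast_zero, abs_zero]
        exact mul_nonneg hy0 (hbox _ _ g1 _ _ _ _ (hb j hj))
      · exact harc (τ j) (τ (j + 1)) hlt g1 g2 _ _ _ _ (hb j hj)
    have hsum0 : 0 ≤ ∑ j ∈ range k, ((b j - a j : ℝ) * (d j - c j)) := by
      refine sum_nonneg fun j hj => ?_
      rw [mem_range] at hj
      exact hbox _ _ (hτ j hj).1 _ _ _ _ (hb j hj)
    calc _ ≤ ∑ j ∈ range k, |(Run7.h822.WN.area2 (at' f) (τ j) (τ (j + 1)) : ℝ)| :=
          abs_sum_le_sum_abs _ _
      _ ≤ ∑ j ∈ range k, y * ((b j - a j : ℝ) * (d j - c j)) := sum_le_sum hterm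
      _ = y * ∑ j ∈ range k, ((b j - a j : ℝ) * (d j - c j)) := (mul_sum _ _ _).symm
      _ ≤ _ := by nlinarith [mul_nonneg hy0 hsum0]

end Pool.Agent.Results.MP_2250b1_co.ChordAreas
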