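import Pool.Agent.Run7.h647.EN.Pack
import Pool.Agent.Run7.h647.EN.Prob

/-!
# The interior of a long self-avoiding polygon is not thin

Uniform self-avoiding polygons of perimeter `2 n` on the square lattice.  With probability at least
`1 - e ^ (-x)` the polygon has the following properties, for all `r ≥ 1`:

* within distance `R` of every site of the polygon, for every `R ≥ K ^ r ((log n) ^ 2 + x)` which is
  smaller than the extent of the polygon seen from this site, there are at least `R / (4 r)` pairwise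
  disjoint `r × r` squares which the polygon does not visit and which it encloses, and as many such
  squares which it does not enclose;
* if `K ^ r ((log n) ^ 2 + x) ≤ √n`, there are at least `n / (K ^ r ((log n) ^ 2 + x))` pairwise
  disjoint `r × r` squares which the polygon does not visit and which it encloses.

In particular there are enclosed empty squares of side `κ log n` in the `n ^ ε`-neighbourhood of every
site.  (Kesten's pattern theorem gives enclosed empty squares of side `κ √(log n)`.)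

Proof.  Let `Q` be a square about the site `f i` with `f j ∉ Q`.  The boundary of `Q` is crossed an
odd number of times by each of the two arcs between `f i` and `f j`.  If all the empty `r × r` squares
along the boundary of `Q` are on the same side of the polygon, and no two sites of the two arcs near
the boundary of `Q` are close to each other, then an arc of the boundary of `Q` between two
consecutive empty squares meets only one of the two arcs of the polygon, and an even number of times;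
this is a contradiction.  So every square `Q` without both kinds of empty squares near its boundary
gives a pair of close sites, one on each arc; and the number of these pairs was bounded by helper738 in
this run (`Run7.h738.PG.all_close`).
-/

set_option autoImplicit false

namespace Pool.Agent.Results.MP_2250b1_co.EnclosedSquares

/-- `f` is a self-avoiding polygon of perimeter `2 n`, with a root (which is the origin) and an
orientation: a closed nearest-neighbour walk of `2 n` steps which visits no vertex twice. (Every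
polygon, up to translation, has exactly `4 n` such descriptions, so that a uniform `f` is a uniform
polygon with a uniform root and orientation.) -/
def IsPolygon (n : ℕ) (f : ZMod (2 * n) → ℤ × ℤ) : Prop :=
  f 0 = 0 ∧ Function.Injective f ∧
    ∀ i : ZMod (2 * n), |(f (i + 1)).1 - (f i).1| + |(f (i + 1)).2 - (f i).2| = 1

/-- The probability of an event under the uniform probability measure on the polygons of perimeter
`2 n`. -/
noncomputable def prob (n : ℕ) (E : (ZMod (2 * n) → ℤ × ℤ) → Prop) : ℝ :=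
  (({f | IsPolygon n f ∧ E f} : Set (ZMod (2 * n) → ℤ × ℤ)).ncard : ℝ) /
    ({f | IsPolygon n f} : Set (ZMod (2 * n) → ℤ × ℤ)).ncard

/-- The unit cell with the lower left corner `p` is enclosed by the polygon: the horizontal half-line
from its centre to the left crosses an odd number of (vertical) edges of the polygon. If the site `p`
is not a site of the polygon, this says that `p` is in the bounded component of the complement of the
polygon. -/
def Enclosed {n : ℕ} (f : ZMod (2 * n) → ℤ × ℤ) (p : ℤ × ℤ) : Prop :=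
  Odd ({i | (f i).1 = (f (i + 1)).1 ∧ (f i).1 ≤ p.1 ∧ min (f i).2 (f (i + 1)).2 = p.2} :
    Set (ZMod (2 * n))).ncard

/-- The square with the lower left corner `u` and `r × r` sites. -/
def sq (u : ℤ × ℤ) (r : ℕ) : Set (ℤ × ℤ) :=
  {p | u.1 ≤ p.1 ∧ p.1 < u.1 + r ∧ u.2 ≤ p.2 ∧ p.2 < u.2 + r}

/-- The sites in the square of side `2 R` with the centre `v`. -/
def box (v : ℤ × ℤ) (R : ℝ) : Set (ℤ × ℤ) :=
  {p | ((|p.1 - v.1| : ℤ) : ℝ) ≤ R ∧ ((|p.2 - v.2| : ℤ) : ℝ) ≤ R}

/-- The `r × r` squares with the lower left corners in `U` are pairwise disjoint, contain no site of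
the polygon, and are enclosed by the polygon. -/
def Inner {n : ℕ} (f : ZMod (2 * n) → ℤ × ℤ) (r : ℕ) (U : Finset (ℤ × ℤ)) : Prop :=
  (∀ u ∈ U, ∀ p ∈ sq u r, (∀ i, f i ≠ p) ∧ Enclosed f p) ∧
    ∀ u ∈ U, ∀ u' ∈ U, u ≠ u' → Disjoint (sq u r) (sq u' r)

/-- The `r × r` squares with the lower left corners in `U` are pairwise disjoint, contain no site of
the polygon, and are not enclosed by the polygon. -/
def Outer {n : ℕ} (f : ZMod (2 * n) → ℤ × ℤ) (r : ℕ) (U : Finset (ℤ × ℤ)) : Prop :=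
  (∀ u ∈ U, ∀ p ∈ sq u r, (∀ i, f i ≠ p) ∧ ¬ Enclosed f p) ∧
    ∀ u ∈ U, ∀ u' ∈ U, u ≠ u' → Disjoint (sq u r) (sq u' r)

/-- In the square of side `2 R` about every site `f i` there are at least `R / (c r)` inner and at
least `R / (c r)` outer squares of side `r`, provided that the polygon is not contained in the large
square. -/
def NearEverySite {n : ℕ} (f : ZMod (2 * n) → ℤ × ℤ) (r : ℕ) (R c : ℝ) : Prop :=
  ∀ i, (∃ j, f j ∉ box (f i) R) → ∃ U V : Finset (ℤ × ℤ), R ≤ c * r * U.card ∧ R ≤ c * r * V.card ∧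
    Inner f r U ∧ Outer f r V ∧ ∀ u ∈ U ∪ V, sq u r ⊆ box (f i) R

/-- In all, there are at least `n / A` inner and at least `n / A` outer squares of side `r`, all
of them within distance `A` of the polygon. -/
def InAll {n : ℕ} (f : ZMod (2 * n) → ℤ × ℤ) (r : ℕ) (A : ℝ) : Prop :=
  ∃ U V : Finset (ℤ × ℤ), (n : ℝ) ≤ A * U.card ∧ (n : ℝ) ≤ A * V.card ∧
    Inner f r U ∧ Outer f r V ∧ ∀ u ∈ U ∪ V, ∃ i, sq u r ⊆ box (f i) A

open Run7.h647.EN in
theorem to_inner {n : ℕ} {f : ZMod (2 * n) → ℤ × ℤ} (hn : 2 ≤ n) {r : ℕ} {U : Finset (ℤ × ℤ)}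
    (h : Sqs f r (fun p => ∀ s', I (Fs f s') (2 * n) p ≠ 0) U) : Inner f r U := by
  have : NeZero (2 * n) := ⟨by omega⟩
  refine ⟨fun u hu p hp => ⟨(h.1 u hu p hp).1, ?_⟩, h.2⟩
  have h1 := (h.1 u hu p hp).2 0
  have h2 : I (Fs f 0) (2 * n) p = 1 := by
    generalize I (Fs f 0) (2 * n) p = z at h1 ⊢
    revert z
    decide
  exact (I_Inside f 0 p).1 h2

open Run7.h647.EN in
theorem to_outer {n : ℕ} {f : ZMod (2 * n) → ℤ × ℤ} (hn : 2 ≤ n) {r : ℕ} {U : Finset (ℤ × ℤ)}
    (h : Sqs f r (fun p => ∀ s', I (Fs f s') (2 * n) p ≠ 1) U) : Outer f r U := by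
  have : NeZero (2 * n) := ⟨by omega⟩
  refine ⟨fun u hu p hp => ⟨(h.1 u hu p hp).1, ?_⟩, h.2⟩
  exact fun h2 => (h.1 u hu p hp).2 0 ((I_Inside f 0 p).2 h2)

theorem not_mem_box {n : ℕ} {f : ZMod (2 * n) → ℤ × ℤ} {i j : ZMod (2 * n)} {R : ℕ}
    (h : f j ∉ box (f i) R) : ¬ Run7.h647.EN.Q (f i) R (f j) := by
  intro hQ
  apply h
  unfold Run7.h647.EN.Q at hQ
  unfold box
  have h1 : |(f j).1 - (f i).1| ≤ (R : ℤ) := by rw [abs_le]; omega
  have h2 : |(f j).2 - (f i).2| ≤ (R : ℤ) := by rw [abs_le]; omega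
  exact ⟨by exact_mod_cast h1, by exact_mod_cast h2⟩

theorem prob_le {n : ℕ} (hn : 2 ≤ n) (E : (ZMod (2 * n) → ℤ × ℤ) → Prop) (c : ℝ) (hc : 0 ≤ c)
    (E' : (ZMod (2 * n) → ℤ × ℤ) → Prop) (hE : ∀ f, IsPolygon n f → E f → E' f)
    (h : (({f | Run7.h738.PG.Loop (2 * n) f ∧ E' f} : Set (ZMod (2 * n) → ℤ × ℤ)).ncard : ℝ) ≤
      c * (({f | Run7.h738.PG.Loop (2 * n) f} : Set (ZMod (2 * n) → ℤ × ℤ)).ncard : ℝ)) :
    prob n E ≤ c := by
  unfold prob
  refine div_le_of_le_mul₀ (Nat.cast_nonneg _) hc (le_trans ?_ h)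
  rw [Nat.cast_le]
  refine Set.ncard_le_ncard (fun f hf => ⟨hf.1, hE f hf.1 hf.2⟩) ?_
  exact (Run7.h738.PG.Loop_finite (2 * n) (by omega)).subset (fun f hf => hf.1)

theorem first : ∃ K : ℝ, 1 < K ∧ ∀ n : ℕ, 2 ≤ n → ∀ x : ℝ, 0 ≤ x →
    prob n (fun f => ¬ ((∀ r R : ℕ, 1 ≤ r → K ^ r * (Real.log n ^ 2 + x) ≤ R →
        NearEverySite f r R 4) ∧
      ∀ r : ℕ, 1 ≤ r → K ^ r * (Real.log n ^ 2 + x) ≤ Real.sqrt n →
        InAll f r (K ^ r * (Real.log n ^ 2 + x)))) ≤ Real.exp (-x) := by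
  obtain ⟨K0, hK0, h⟩ := Run7.h647.EN.poly_all_w
  have hK04 : 1 < K0 ^ 4 := one_lt_pow₀ hK0 (by norm_num)
  refine ⟨6400 * K0 ^ 4, by linarith, fun n hn x hx => ?_⟩
  refine prob_le hn _ _ (Real.exp_pos _).le _ (fun f hf hbad => ?_) (h n hn x hx)
  by_contra hcon
  push Not at hcon
  apply hbad
  have hl := Run7.h647.EN.log_ge hn
  set L := Real.log n ^ 2 + x with hL
  have hL1 : 1 ≤ 3 * L := by
    rw [hL]
    linarith
  have hL0 : 0 < L := by linarith
  have hX : ∀ (w : ℕ) (s : ZMod (2 * n)) (a : ℕ), 1 ≤ w →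
      (Run7.h738.PG.XA w f s a : ℝ) ≤ K0 ^ w * L := fun w s a hw => hcon w s a hw
  constructor
  · intro r R hr hR i hj
    obtain ⟨j, hj⟩ := hj
    have hR' : (32 * K0 ^ 4) ^ r * L ≤ R := by
      refine le_trans (mul_le_mul_of_nonneg_right ?_ hL0.le) hR
      exact pow_le_pow_left₀ (by positivity) (by linarith) r
    obtain ⟨U, hU1, hU2, hU3⟩ := Run7.h647.EN.loc_sq hn hf hK0 hL1 hX hr hR' (not_mem_box hj) 0
    obtain ⟨V, hV1, hV2, hV3⟩ := Run7.h647.EN.loc_sq hn hf hK0 hL1 hX hr hR' (not_mem_box hj) 1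
    refine ⟨U, V, by exact_mod_cast hU1, by exact_mod_cast hV1, to_inner hn hU2, to_outer hn hV2,
      ?_⟩
    intro u hu p hp
    rcases Finset.mem_union.1 hu with hu | hu
    · obtain ⟨h1, h2⟩ := hU3 u hu p hp
      exact ⟨by exact_mod_cast h1, by exact_mod_cast h2⟩
    · obtain ⟨h1, h2⟩ := hV3 u hu p hp
      exact ⟨by exact_mod_cast h1, by exact_mod_cast h2⟩
  · intro r hr hR
    obtain ⟨U, hU1, hU2, hU3⟩ := Run7.h647.EN.glob_sq hn hf hK0 hL1 hX hr hR 0
    obtain ⟨V, hV1, hV2, hV3⟩ := Run7.h647.EN.glob_sq hn hf hK0 hL1 hX hr hR 1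
    refine ⟨U, V, hU1, hV1, to_inner hn hU2, to_outer hn hV2, ?_⟩
    intro u hu
    rcases Finset.mem_union.1 hu with hu | hu
    · obtain ⟨s, hs⟩ := hU3 u hu
      exact ⟨s, fun p hp => hs p hp⟩
    · obtain ⟨s, hs⟩ := hV3 u hu
      exact ⟨s, fun p hp => hs p hp⟩

/-- **Enclosed squares.**  (1) There is `K > 1` such that for all `n ≥ 2` and `x ≥ 0`, with
probability at least `1 - e ^ (-x)`, the uniform polygon of perimeter `2 n` satisfies, for all
`r ≥ 1`: (a) for all integers `R ≥ K ^ r ((log n) ^ 2 + x)` and all sites `f i`, if the polygon is not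
contained in the square of side `2 R` about `f i`, then this square contains at least `R / (4 r)`
pairwise disjoint `r × r` squares without sites of the polygon which are enclosed by the polygon, and
at least `R / (4 r)` which are not enclosed; (b) if `A = K ^ r ((log n) ^ 2 + x) ≤ √n`, there are
at least `n / A` pairwise disjoint enclosed `r × r` squares without sites of the polygon, and also at
least `n / A` such squares which are not enclosed, all within distance `A` of the polygon.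
(2) For all `0 < ε < 1 / 2` there are `κ > 0` and `n₀` such that for `n ≥ n₀`, with probability at
least `1 - exp (- n ^ (ε / 2))`, the square of side `2 n ^ ε` about every site of the polygon contains
at least `n ^ ε / (8 r)` pairwise disjoint enclosed squares of side `r = ⌊κ log n⌋ ≥ 1` without sites
of the polygon, and as many such squares which are not enclosed. -/
theorem result : (∃ K : ℝ, 1 < K ∧ ∀ n : ℕ, 2 ≤ n → ∀ x : ℝ, 0 ≤ x →
    prob n (fun f => ¬ ((∀ r R : ℕ, 1 ≤ r → K ^ r * (Real.log n ^ 2 + x) ≤ R →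
        NearEverySite f r R 4) ∧
      ∀ r : ℕ, 1 ≤ r → K ^ r * (Real.log n ^ 2 + x) ≤ Real.sqrt n →
        InAll f r (K ^ r * (Real.log n ^ 2 + x)))) ≤ Real.exp (-x)) ∧
    ∀ ε : ℝ, 0 < ε → ε < 1 / 2 → ∃ κ : ℝ, 0 < κ ∧ ∃ n₀ : ℕ, ∀ n : ℕ, n₀ ≤ n →
      1 ≤ ⌊κ * Real.log n⌋₊ ∧
      prob n (fun f => ¬ ((∀ i, ∃ j, f j ∉ box (f i) ((n : ℝ) ^ ε)) ∧
        NearEverySite f ⌊κ * Real.log n⌋₊ ((n : ℝ) ^ ε) 8)) ≤
        Real.exp (-(n : ℝ) ^ (ε / 2)) := by
  obtain ⟨K, hK, h⟩ := first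
  refine ⟨⟨K, hK, h⟩, fun ε hε hε2 => ?_⟩
  have hlK : 0 < Real.log K := Real.log_pos hK
  set κ : ℝ := ε / (4 * Real.log K) with hκ
  have hκ0 : 0 < κ := by positivity
  refine ⟨κ, hκ0, ?_⟩
  have ev1 : ∀ᶠ n : ℕ in Filter.atTop, ‖Real.log (n : ℝ) ^ (2 : ℝ)‖ ≤
      1 * ‖(n : ℝ) ^ (ε / 2)‖ :=
    tendsto_natCast_atTop_atTop.eventually
      ((isLittleO_log_rpow_rpow_atTop 2 (half_pos hε)).def (by norm_num : (0 : ℝ) < 1))
  have ev2 : ∀ᶠ n : ℕ in Filter.atTop, κ⁻¹ ≤ Real.log (n : ℝ) :=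
    (Real.tendsto_log_atTop.comp tendsto_natCast_atTop_atTop).eventually_ge_atTop _
  have ev3 : ∀ᶠ n : ℕ in Filter.atTop, (3 : ℝ) ≤ (n : ℝ) ^ (ε / 4) :=
    ((tendsto_rpow_atTop (by positivity)).comp tendsto_natCast_atTop_atTop).eventually_ge_atTop _
  have ev4 : ∀ᶠ n : ℕ in Filter.atTop, (9 : ℝ) ≤ (n : ℝ) ^ (1 - 2 * ε) :=
    ((tendsto_rpow_atTop (by linarith)).comp tendsto_natCast_atTop_atTop).eventually_ge_atTop _
  obtain ⟨n₀, hn₀⟩ := Filter.eventually_atTop.1
    (((ev1.and ev2).and (ev3.and ev4)).and (Filter.eventually_ge_atTop 2))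
  refine ⟨n₀, fun n hn => ?_⟩
  obtain ⟨⟨⟨h1, h2⟩, h3, h4⟩, h5⟩ := hn₀ n hn
  have hn' : (2 : ℝ) ≤ n := by exact_mod_cast h5
  have hn0 : (0 : ℝ) < n := by linarith
  have hr : 1 ≤ ⌊κ * Real.log n⌋₊ := by
    rw [Nat.le_floor_iff (by
      have : 0 < κ⁻¹ := by positivity
      have : 0 < Real.log n := by linarith
      positivity), Nat.cast_one]
    calc (1 : ℝ) = κ * κ⁻¹ := (mul_inv_cancel₀ hκ0.ne').symm
      _ ≤ κ * Real.log n := mul_le_mul_of_nonneg_left h2 hκ0.le
  refine ⟨hr, ?_⟩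
  have hlog0 : 0 ≤ Real.log n := Real.log_nonneg (by linarith)
  set y := (n : ℝ) ^ (ε / 4) with hy
  have hy0 : 0 < y := by positivity
  have ey2 : (n : ℝ) ^ (ε / 2) = y ^ 2 := by
    rw [hy, ← Real.rpow_natCast, ← Real.rpow_mul hn0.le]
    congr 1
    push_cast
    ring
  have ey4 : (n : ℝ) ^ ε = y ^ 4 := by
    rw [hy, ← Real.rpow_natCast, ← Real.rpow_mul hn0.le]
    congr 1
    push_cast
    ring
  have h6 : Real.log n ^ 2 ≤ y ^ 2 := by
    rw [one_mul, Real.norm_of_nonneg (by positivity), Real.norm_of_nonneg (by positivity)] at h1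
    have e : Real.log (n : ℝ) ^ (2 : ℝ) = Real.log n ^ 2 := by
      rw [← Real.rpow_natCast]
      norm_num
    rw [e, ey2] at h1
    exact h1
  have h7 : K ^ ⌊κ * Real.log n⌋₊ ≤ y := by
    have e1 : K ^ ⌊κ * Real.log n⌋₊ = Real.exp (Real.log K * ⌊κ * Real.log n⌋₊) := by
      rw [← Real.rpow_natCast, Real.rpow_def_of_pos (by linarith)]
    rw [e1, hy, Real.rpow_def_of_pos (by linarith), Real.exp_le_exp]
    have e2 : (⌊κ * Real.log n⌋₊ : ℝ) ≤ κ * Real.log n := Nat.floor_le (by positivity)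
    calc Real.log K * ⌊κ * Real.log n⌋₊ ≤ Real.log K * (κ * Real.log n) :=
          mul_le_mul_of_nonneg_left e2 hlK.le
      _ = Real.log n * (ε / 4) := by
          rw [hκ]
          field_simp
  set R := ⌊y ^ 4⌋₊ with hR
  have hR1 : (R : ℝ) ≤ y ^ 4 := Nat.floor_le (by positivity)
  have hR2 : y ^ 4 < R + 1 := Nat.lt_floor_add_one _
  have h8 : K ^ ⌊κ * Real.log n⌋₊ * (Real.log n ^ 2 + y ^ 2) ≤ R := by
    have e3 : K ^ ⌊κ * Real.log n⌋₊ * (Real.log n ^ 2 + y ^ 2) ≤ y * (2 * y ^ 2) :=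
      mul_le_mul h7 (by linarith) (by positivity) hy0.le
    have e4 : 3 * y ^ 3 ≤ y ^ 4 := by
      have := mul_le_mul_of_nonneg_right h3 (show (0 : ℝ) ≤ y ^ 3 by positivity)
      nlinarith
    have e5 : (1 : ℝ) ≤ y ^ 3 := one_le_pow₀ (by linarith)
    nlinarith
  have hRs : (2 * R + 1) ^ 2 < 2 * n := by
    have e1 : (1 : ℝ) ≤ y ^ 4 := one_le_pow₀ (by linarith)
    have e2 : (2 * (R : ℝ) + 1) ≤ 3 * y ^ 4 := by linarith
    have e3 : (2 * (R : ℝ) + 1) ^ 2 ≤ 9 * (y ^ 4) ^ 2 := by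
      have := pow_le_pow_left₀ (by positivity) e2 2
      linarith [this, mul_pow (3 : ℝ) (y ^ 4) 2]
    have e4 : (y ^ 4) ^ 2 * (n : ℝ) ^ (1 - 2 * ε) = n := by
      rw [← ey4, ← Real.rpow_natCast, ← Real.rpow_mul hn0.le, ← Real.rpow_add hn0]
      have : ε * ((2 : ℕ) : ℝ) + (1 - 2 * ε) = 1 := by
        push_cast
        ring
      rw [this, Real.rpow_one]
    have e5 : 9 * (y ^ 4) ^ 2 ≤ n := by
      calc 9 * (y ^ 4) ^ 2 = (y ^ 4) ^ 2 * 9 := by ring
        _ ≤ (y ^ 4) ^ 2 * (n : ℝ) ^ (1 - 2 * ε) :=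
            mul_le_mul_of_nonneg_left h4 (by positivity)
        _ = n := e4
    have e6 : ((2 * R + 1) ^ 2 : ℝ) ≤ n := e3.trans e5
    have e7 : (2 * R + 1) ^ 2 ≤ n := by exact_mod_cast e6
    omega
  rw [ey2, ey4]
  have h9 := h n h5 (y ^ 2) (by positivity)
  have hsub : prob n (fun f => ¬ ((∀ i, ∃ j, f j ∉ box (f i) (y ^ 4)) ∧
      NearEverySite f ⌊κ * Real.log n⌋₊ (y ^ 4) 8)) ≤
      prob n (fun f => ¬ ((∀ r R : ℕ, 1 ≤ r → K ^ r * (Real.log n ^ 2 + y ^ 2) ≤ R →
        NearEverySite f r R 4) ∧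
      ∀ r : ℕ, 1 ≤ r → K ^ r * (Real.log n ^ 2 + y ^ 2) ≤ Real.sqrt n →
        InAll f r (K ^ r * (Real.log n ^ 2 + y ^ 2)))) := by
    unfold prob
    refine div_le_div_of_nonneg_right ?_ (Nat.cast_nonneg _)
    rw [Nat.cast_le]
    refine Set.ncard_le_ncard ?_ ((Run7.h738.PG.Loop_finite (2 * n) (by omega)).subset
      (fun f hf => hf.1))
    rintro f ⟨hf, hbad⟩
    refine ⟨hf, fun hgood => hbad ?_⟩
    have hfar : ∀ i, ∃ j, f j ∉ box (f i) (y ^ 4) := by
      intro i
      obtain ⟨t, ht⟩ := Run7.h647.EN.far_site h5 hf.2.1 hRs i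
      refine ⟨t, fun hmem => ht ?_⟩
      obtain ⟨m1, m2⟩ := hmem
      have q1 : |(f t).1 - (f i).1| ≤ (R : ℤ) := by
        have := m1.trans_lt hR2
        have : |(f t).1 - (f i).1| < (R : ℤ) + 1 := by exact_mod_cast this
        omega
      have q2 : |(f t).2 - (f i).2| ≤ (R : ℤ) := by
        have := m2.trans_lt hR2
        have : |(f t).2 - (f i).2| < (R : ℤ) + 1 := by exact_mod_cast this
        omega
      rw [abs_le] at q1 q2
      unfold Run7.h647.EN.Q
      omega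
    refine ⟨hfar, fun i _ => ?_⟩
    obtain ⟨j, hj⟩ := hfar i
    have hj' : f j ∉ box (f i) R := by
      intro hmem
      exact hj ⟨hmem.1.trans hR1, hmem.2.trans hR1⟩
    obtain ⟨U, V, hU, hV, hI, hO, hB⟩ := hgood.1 ⌊κ * Real.log n⌋₊ R hr h8 i ⟨j, hj'⟩
    have hbig : y ^ 4 ≤ 2 * R := by
      have e1 : (3 : ℝ) ≤ y ^ 4 := by
        have := one_le_pow₀ (show (1 : ℝ) ≤ y by linarith) (n := 3)
        nlinarith
      linarith
    refine ⟨U, V, by linarith, by linarith, hI, hO, fun u hu p hp => ?_⟩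
    obtain ⟨b1, b2⟩ := hB u hu hp
    exact ⟨b1.trans hR1, b2.trans hR1⟩
  exact hsub.trans h9

end Pool.Agent.Results.MP_2250b1_co.EnclosedSquares
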