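import Pool.Agent.Run7.h106.AQ.Poly

/-!
Self-avoiding polygons on the square lattice weighted by `q^area exp (s width + t height)`: analytic
continuation of the generating functions of the powers of the area beyond the own circle of
convergence, uniformly in `q`, `s`, `t`.
-/

set_option autoImplicit false

namespace Pool.Agent.Results.MP_2250b1_co.TiltedAreaSeriesContinuation

open Filter Topology

/-- `ω` is an `n`-step self-avoiding walk on `ℤ²` started at the origin. -/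
def IsSAW (n : ℕ) (ω : Fin (n + 1) → ℤ × ℤ) : Prop :=
  ω 0 = (0, 0) ∧
  (∀ i : Fin n, |(ω i.succ).1 - (ω i.castSucc).1| + |(ω i.succ).2 - (ω i.castSucc).2| = 1) ∧
  Function.Injective ω

/-- the number of `n`-step self-avoiding walks on `ℤ²` started at the origin -/
noncomputable def c (n : ℕ) : ℕ := {ω | IsSAW n ω}.ncard

/-- a closed nearest-neighbour loop on `ℤ²` with `m` steps, rooted at the origin and oriented,
that visits no vertex twice -/
def IsLoop (m : ℕ) (f : ZMod m → ℤ × ℤ) : Prop :=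
  f 0 = 0 ∧ Function.Injective f ∧
    ∀ i : ZMod m, |(f (i + 1)).1 - (f i).1| + |(f (i + 1)).2 - (f i).2| = 1

/-- the edge from `f k` to `f (k+1)` is horizontal, joins the columns `x = a` and `x = a + 1`, and
has height larger than `b`: it lies above the unit cell `[a, a+1] × [b, b+1]` -/
def Above (m : ℕ) (f : ZMod m → ℤ × ℤ) (a b : ℤ) (k : ZMod m) : Prop :=
  (((f k).1 = a ∧ (f (k + 1)).1 = a + 1) ∨ ((f k).1 = a + 1 ∧ (f (k + 1)).1 = a)) ∧ b < (f k).2

/-- the unit cell `[a, a+1] × [b, b+1]` is enclosed by the loop: the vertical ray from the cell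
upwards crosses an odd number of edges -/
def Encl (m : ℕ) (f : ZMod m → ℤ × ℤ) (c : ℤ × ℤ) : Prop :=
  Odd (Nat.card {k : ZMod m // Above m f c.1 c.2 k})

/-- the area: the number of unit cells enclosed by the loop -/
noncomputable def area (m : ℕ) (f : ZMod m → ℤ × ℤ) : ℕ := Nat.card {c : ℤ × ℤ // Encl m f c}

/-- the width (horizontal extent) of a loop -/
noncomputable def width (m : ℕ) (f : ZMod m → ℤ × ℤ) : ℕ :=
  sSup {w : ℕ | ∃ i j, w = ((f i).1 - (f j).1).natAbs}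

/-- the height (vertical extent) of a loop -/
noncomputable def height (m : ℕ) (f : ZMod m → ℤ × ℤ) : ℕ :=
  sSup {w : ℕ | ∃ i j, w = ((f i).2 - (f j).2).natAbs}

/-- The sum of `q^area (area + a n)^k exp (s width + t height)` over the self-avoiding polygons of
perimeter `2 n` up to translation: every polygon corresponds to `4 n` loops from the origin. -/
noncomputable def S (a : ℝ) (k : ℕ) (q s t : ℝ) (n : ℕ) : ℝ :=
  (∑ᶠ f ∈ {f : ZMod (2 * n) → ℤ × ℤ | IsLoop (2 * n) f},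
    q ^ area (2 * n) f * ((area (2 * n) f : ℝ) + a * n) ^ k *
      Real.exp (s * width (2 * n) f + t * height (2 * n) f)) / (4 * (n : ℝ))

/-- The series `∑_P q^(area P) exp (s width P + t height P) x^(perimeter P)` over the self-avoiding
polygons `P` converges for all `x` in `[0, 1/ν)`. -/
def Conv (ν q s t : ℝ) : Prop :=
  ∀ x : ℝ, 0 ≤ x → ν * x < 1 → Summable (fun n : ℕ => S 0 0 q s t (n + 2) * x ^ (2 * (n + 2)))

/-- `cos (2 arg z)` for `z ≠ 0` -/
noncomputable def cos2 (z : ℂ) : ℝ := (z ^ 2).re / ‖z‖ ^ 2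

/-- The domain `|z| < (1 + δ (1 - cos (2 arg z))) / ν`: the disc `|z| < 1 / ν` enlarged at all
points of the circle `|z| = 1 / ν` except `±1 / ν`. -/
def Dom (ν δ : ℝ) : Set ℂ := {z | ν * ‖z‖ < 1 + δ * (1 - cos2 z)}

/-- The point `(1 - δ (1 - cos (2 arg z))) / ν` of the interval `(0, 1/ν)`. -/
noncomputable def inner (ν δ : ℝ) (z : ℂ) : ℝ := (1 - δ * (1 - cos2 z)) / ν

/-- `F` is a holomorphic extension of `∑_{n ≥ 2} u n z^(2n)` from the disc `|z| < 1/ν` to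
`Dom ν δ`. -/
def Extends (ν δ : ℝ) (u : ℕ → ℝ) (F : ℂ → ℂ) : Prop :=
  DifferentiableOn ℂ F (Dom ν δ) ∧
    ∀ z : ℂ, ν * ‖z‖ < 1 → HasSum (fun n : ℕ => (u (n + 2) : ℂ) * z ^ (2 * (n + 2))) (F z)

open Pool.Agent.H976R2 Pool.Agent.N929.EZ Pool.Agent.H739K Run7.h106.AC Run7.h106.AW Run7.h106.AQ

theorem S_eq (a : ℝ) (k : ℕ) (q s t : ℝ) (n : ℕ) : S a k q s t (n + 2) =
    (∑ w ∈ KP (2 * (n + 2) - 1), QF a k q (fun x y => Real.exp (s * x + t * y)) w) /
      (4 * ((n + 2 : ℕ) : ℝ)) := by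
  unfold S
  rw [← loop_QF (by omega) a k q (fun x y => Real.exp (s * x + t * y))]
  rfl

/-- **Theorem.** Let `μ` be the connective constant of `ℤ²`. There are `h₀ > 0`, `κ > 1` and `δ > 0`
with the following properties.
(0) For every `ν` in `[μ/κ, κ μ]` the open connected set `Dom ν δ` contains the disc `|z| < 1/ν` and
all points of the circle `|z| = 1/ν` except `1/ν` and `-1/ν`.
(1) For every `k` there is `K` such that for all `q` in `[1/2, 1]`, all `s`, `t` with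
`|s|, |t| ≤ h₀` and all `ν` in `[μ/κ, κ μ]` for which the sum over the self-avoiding polygons `P` of
`q^(area P) exp (s width P + t height P) z^(perimeter P)` converges for `|z| < 1/ν`, the same sums
with the additional factor `(area P)^k` and `(area P + perimeter P / 2)^k` have holomorphic
extensions `F` and `F₁` to `Dom ν δ` with `|F'(z)| ≤ K (1 + |F₁'(x)|)` and
`|F₁'(z)| ≤ K (1 + |F₁'(x)|)` for `z² ∉ [0, ∞)`, where `x = (1 - δ (1 - cos (2 arg z))) / ν < 1/ν`.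
(2) If `s, t ≤ 0` then the hypothesis of (1) holds for `ν = μ`. -/
theorem result : ∃ μ : ℝ, 1 ≤ μ ∧
    Tendsto (fun n : ℕ => (c n : ℝ) ^ (1 / (n : ℝ))) atTop (𝓝 μ) ∧
    ∃ h₀ : ℝ, 0 < h₀ ∧ ∃ κ : ℝ, 1 < κ ∧ ∃ δ : ℝ, 0 < δ ∧ δ ≤ 1 / 4 ∧
    (∀ ν : ℝ, μ / κ ≤ ν → ν ≤ κ * μ →
      IsOpen (Dom ν δ) ∧ IsPreconnected (Dom ν δ) ∧ (∀ z : ℂ, ν * ‖z‖ < 1 → z ∈ Dom ν δ) ∧
      ∀ z : ℂ, ν * ‖z‖ = 1 → z ≠ ((1 / ν : ℝ) : ℂ) → z ≠ ((-(1 / ν) : ℝ) : ℂ) → z ∈ Dom ν δ) ∧
    (∀ k : ℕ, ∃ K : ℝ, ∀ q s t : ℝ, 1 / 2 ≤ q → q ≤ 1 → |s| ≤ h₀ → |t| ≤ h₀ →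
      ∀ ν : ℝ, μ / κ ≤ ν → ν ≤ κ * μ → Conv ν q s t →
      ∃ F F₁ : ℂ → ℂ, Extends ν δ (S 0 k q s t) F ∧ Extends ν δ (S 1 k q s t) F₁ ∧
        ∀ z ∈ Dom ν δ, z ≠ 0 → cos2 z < 1 →
          ‖deriv F z‖ ≤ K * (1 + ‖deriv F₁ (inner ν δ z : ℂ)‖) ∧
          ‖deriv F₁ z‖ ≤ K * (1 + ‖deriv F₁ (inner ν δ z : ℂ)‖)) ∧
    ∀ q s t : ℝ, 0 ≤ q → q ≤ 1 → s ≤ 0 → t ≤ 0 → Conv μ q s t := by
  have hμ : 2 ≤ H981.mu := by linarith [Pool.Agent.H739K.mu_ge]
  obtain ⟨κ, hκ1, hκ2, δ, hδ, hδ4, h⟩ := kpQ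
  have hκ0 : 0 < κ := by linarith
  have hlog : 0 < Real.log κ := Real.log_pos hκ1
  have hν : ∀ ν : ℝ, H981.mu / κ ≤ ν → H981.mu ≤ κ * ν ∧ 1 ≤ ν := by
    intro ν h1
    rw [div_le_iff₀ hκ0] at h1
    exact ⟨by linarith, by nlinarith⟩
  have hS : ∀ (a : ℝ) (k : ℕ) (q s t ν : ℝ) (F : ℂ → ℂ),
      Ep δ ν (QF a k q (fun x y => Real.exp (s * x + t * y))) F →
      Extends ν δ (S a k q s t) F := by
    intro a k q s t ν F hF
    refine ⟨hF.1, fun z hz => ?_⟩
    refine (congrArg (fun g => HasSum g (F z)) ?_).mp (hF.2 z hz)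
    funext n
    rw [S_eq]
  refine ⟨H981.mu, by linarith, c_lim, Real.log κ / 2, by positivity, κ, hκ1, δ, hδ, hδ4,
    fun ν h1 h2 => ?_, fun k => ?_, ?_⟩
  · obtain ⟨e1, e2⟩ := hν ν h1
    obtain ⟨d1, d2, d3, d4⟩ := dom_nu hδ e2
    exact ⟨d1, d2, d3, d4⟩
  · obtain ⟨B, hB⟩ : ∃ B : ℝ, B = Real.exp (4 * (Real.log κ / 2)) := ⟨_, rfl⟩
    have hB1 : 1 ≤ B := by rw [hB]; exact Real.one_le_exp (by positivity)
    obtain ⟨K, hK, h'⟩ := h (81 * B ^ 2 * 9 ^ k) (2 * k) (81 * B ^ 2 * 12 ^ k) (by positivity) (by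
      have e1 : (1 : ℝ) ≤ 12 ^ k := one_le_pow₀ (by norm_num)
      have e2 : (1 : ℝ) ≤ B ^ 2 := one_le_pow₀ hB1
      nlinarith)
    refine ⟨K, fun q s t hq hq1 hs ht ν h1 h2 hc => ?_⟩
    obtain ⟨e1, e2⟩ := hν ν h1
    have hg : Run7.h106.AV.Rg B (Real.log κ / 2) (fun x y => Real.exp (s * x + t * y)) := by
      refine ⟨fun a b => ⟨(Real.exp_pos _).le, ?_⟩, fun a b i j hi hj => ?_⟩
      · have hs' := abs_le.1 hs
        have ht' := abs_le.1 ht
        have ha : (0 : ℝ) ≤ a := Nat.cast_nonneg a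
        have hb : (0 : ℝ) ≤ b := Nat.cast_nonneg b
        rw [hB, ← Real.exp_add]
        refine Real.exp_le_exp.2 ?_
        nlinarith
      · have hs' := abs_le.1 hs
        have ht' := abs_le.1 ht
        have hi0 : (0 : ℝ) ≤ i := Nat.cast_nonneg i
        have hj0 : (0 : ℝ) ≤ j := Nat.cast_nonneg j
        have hi2 : (i : ℝ) ≤ 2 := by exact_mod_cast hi
        have hj2 : (j : ℝ) ≤ 2 := by exact_mod_cast hj
        rw [hB, ← Real.exp_add, ← Real.exp_add]
        push_cast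
        constructor
        · refine Real.exp_le_exp.2 ?_
          nlinarith
        · refine Real.exp_le_exp.2 ?_
          nlinarith
    have hq0 : 0 ≤ q := by linarith
    have hc' : ∀ x : ℝ, 0 ≤ x → ν * x < 1 → Summable (fun n : ℕ =>
        (∑ w ∈ KP n, QF 0 0 q (fun x y => Real.exp (s * x + t * y)) w) * x ^ n) := by
      refine summ_of e2 (u := fun n => ∑ w ∈ KP n, QF 0 0 q (fun x y => Real.exp (s * x + t * y)) w)
        (fun n => Finset.sum_nonneg fun w _ => QF_nonneg le_rfl 0 hq0 hg w)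
        (KP_zero fun w hw => by unfold QF; rw [if_neg hw]) fun x hx0 hx => ?_
      exact (hc x hx0 hx).congr fun n => by rw [S_eq]
    obtain ⟨F, F₁, g1, g2, g3⟩ := h' ν e2 e1 h2
      (QF 0 k q (fun x y => Real.exp (s * x + t * y)))
      (QF 1 k q (fun x y => Real.exp (s * x + t * y)))
      (fun w => ⟨QF_nonneg le_rfl k hq0 hg w, QF_le hq0 hg w⟩)
      (fun w hw => by unfold QF; rw [if_neg hw])
      (QF_hp hκ1 hB1 hg hq hq1 k le_rfl zero_le_one)
      (QF_hp hκ1 hB1 hg hq hq1 k zero_le_one le_rfl)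
      (QF_conv e2 hq0 hg k hc')
    exact ⟨F, F₁, hS _ _ _ _ _ _ _ g1, hS _ _ _ _ _ _ _ g2, g3⟩
  · intro q s t hq hq1 hs ht x hx0 hx
    obtain ⟨δ', hδ', hδ4', K, hK, hac⟩ := gq_ac
    obtain ⟨f, f1, f2⟩ := hac 1 (by norm_num) le_rfl
    obtain ⟨F, F1, F2⟩ := poly_series hδ' (G := Gq 1)
      (fun w hw => by unfold Gq; rw [if_neg hw]) f1
    have h1 := (F2 (x : ℂ) (by rwa [Complex.norm_real, Real.norm_of_nonneg hx0])).summable
    have h2 : Summable (fun n : ℕ => (∑ w ∈ KP (2 * (n + 2) - 1), Gq 1 w) /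
        (4 * ((n + 2 : ℕ) : ℝ)) * x ^ (2 * (n + 2))) := by
      rw [← Complex.summable_ofReal]
      refine h1.congr fun n => ?_
      push_cast
      ring
    refine Summable.of_nonneg_of_le (fun n => ?_) (fun n => ?_) h2
    · rw [S_eq]
      refine mul_nonneg (div_nonneg (Finset.sum_nonneg fun w _ => ?_) (by positivity))
        (by positivity)
      unfold QF
      split_ifs <;> positivity
    · rw [S_eq]
      refine mul_le_mul_of_nonneg_right (div_le_div_of_nonneg_right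
        (Finset.sum_le_sum fun w _ => ?_) (by positivity)) (by positivity)
      unfold QF Gq
      split_ifs with h4
      · rw [one_pow, pow_zero, mul_one]
        have e1 := mul_nonpos_of_nonpos_of_nonneg hs
          (Nat.cast_nonneg (α := ℝ) (mxx w - mnx w).toNat)
        have e2 := mul_nonpos_of_nonpos_of_nonneg ht
          (Nat.cast_nonneg (α := ℝ) (mxy w - mny w).toNat)
        exact mul_le_one₀ (pow_le_one₀ hq hq1) (Real.exp_pos _).le
          (Real.exp_le_one_iff.2 (by linarith))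
      · exact le_rfl

end Pool.Agent.Results.MP_2250b1_co.TiltedAreaSeriesContinuation
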